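import Mathlib

open MeasureTheory Filter Set
open scoped Topology ENNReal symmDiff

namespace Pool.Agent.Results.MP_8ac988_an.No

/-- a Følner sequence in `ℕ²` (`ℕ = {1, 2, …}`), seen inside `ℤ²` -/
def Folner (I : ℕ → Finset (ℤ × ℤ)) : Prop :=
  (∀ j, (I j).Nonempty) ∧ (∀ j, ∀ p ∈ I j, 1 ≤ p.1 ∧ 1 ≤ p.2) ∧
    ∀ k : ℤ × ℤ, Tendsto (fun j => ((((I j).image (· + k)) ∆ (I j)).card : ℝ) / (I j).card)
      atTop (𝓝 0)

/-- the square of the seminorm `‖a‖₂` -/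
noncomputable def sq2 (a : ℤ × ℤ → ℂ) : ℝ≥0∞ :=
  ⨆ (I : ℕ → Finset (ℤ × ℤ)) (_ : Folner I),
    limsup (fun j => ENNReal.ofReal ((∑ p ∈ I j, ‖a p‖ ^ 2) / (I j).card)) atTop

/-- on `ℕ²`, `b (m, n) = Ψ (τ₁ ^ m τ₂ ^ n e)` for an abelian topological group `G`, a cocompact
subgroup `Γ` and a continuous `Ψ` on `G / Γ` -/
def Nil1 (b : ℤ × ℤ → ℂ) : Prop :=
  ∃ (G : Type) (_ : CommGroup G) (_ : TopologicalSpace G) (_ : IsTopologicalGroup G)
    (Γ : Subgroup G) (_ : CompactSpace (G ⧸ Γ)) (Ψ : C(G ⧸ Γ, ℂ)) (τ₁ τ₂ : G),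
    ∀ m n : ℤ, 1 ≤ m → 1 ≤ n → b (m, n) = Ψ ((τ₁ ^ m * τ₂ ^ n : G) : G ⧸ Γ)

/-- `a` is a `‖·‖₂`-limit of such sequences -/
def Approx1 (a : ℤ × ℤ → ℂ) : Prop :=
  ∀ ε : ℝ, 0 < ε → ∃ b, Nil1 b ∧ sq2 (a - b) ≤ ENNReal.ofReal (ε ^ 2)

theorem ap {b : ℤ × ℤ → ℂ} (hb : Nil1 b) {δ : ℝ} (hδ : 0 < δ) :
    ∃ h : ℕ, 1 ≤ h ∧ ∀ m n : ℤ, 1 ≤ m → 1 ≤ n → ‖b (m + h, n) - b (m, n)‖ < δ := by
  obtain ⟨G, _, _, _, Γ, _, Ψ, s, t, H⟩ := hb
  have h1 : ∀ᶠ v in 𝓝 (1 : G ⧸ Γ), ∀ x ∈ (univ : Set (G ⧸ Γ)), ‖Ψ (x * v) - Ψ x‖ < δ := by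
    refine isCompact_univ.eventually_forall_of_forall_eventually fun x _ => ?_
    have hc : Continuous fun q : (G ⧸ Γ) × (G ⧸ Γ) => ‖Ψ (q.2 * q.1) - Ψ q.2‖ := by fun_prop
    exact hc.continuousAt.eventually_lt continuousAt_const (by simpa using hδ)
  obtain ⟨h, h2, h3⟩ := (((mapClusterPt_one_atTop_pow (s : G ⧸ Γ)).frequently h1).and_eventually
    (eventually_ge_atTop 1)).exists
  refine ⟨h, h3, fun m n hm hn => ?_⟩
  rw [H _ _ (by omega) hn, H _ _ hm hn]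
  have := h2 ((s ^ m * t ^ n : G) : G ⧸ Γ) trivial
  rwa [← QuotientGroup.mk_pow, ← QuotientGroup.mk_mul, mul_right_comm, ← zpow_natCast,
    ← zpow_add] at this

noncomputable def box (h : ℕ) (j : ℕ) : Finset (ℤ × ℤ) :=
  Finset.Icc (1 + h : ℤ) (j + 1 + h) ×ˢ Finset.Icc (1 : ℤ) (j + 1)

theorem box_card (h j : ℕ) : (box h j).card = (j + 1) ^ 2 := by
  simp only [box, Finset.card_product, Int.card_Icc]
  rw [show (j : ℤ) + 1 + h + 1 - (1 + h) = ((j + 1 : ℕ) : ℤ) by push_cast; ring,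
    show (j : ℤ) + 1 + 1 - 1 = ((j + 1 : ℕ) : ℤ) by push_cast; ring, Int.toNat_natCast, sq]

theorem box_fol (h : ℕ) : Folner (box h) := by
  refine ⟨fun j => Finset.card_pos.1 (by rw [box_card]; positivity), fun j p hp => ?_, fun k => ?_⟩
  · simp only [box, Finset.mem_product, Finset.mem_Icc] at hp; omega
  · set c : ℕ := k.1.natAbs + k.2.natAbs with hc
    have hb : ∀ j : ℕ, (((box h j).image (· + k)) ∆ (box h j)).card ≤
        (8 * (2 * c + 1) ^ 2) * (j + 1) := by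
      intro j
      let A : Finset ℤ := Finset.Icc (1 + h - c : ℤ) (j + 1 + h + c)
      let B : Finset ℤ := Finset.Icc (1 - c : ℤ) (j + 1 + c)
      let A' : Finset ℤ := Finset.Icc (1 + h - c : ℤ) (1 + h + c) ∪
        Finset.Icc (j + 1 + h - c : ℤ) (j + 1 + h + c)
      let B' : Finset ℤ := Finset.Icc (1 - c : ℤ) (1 + c) ∪ Finset.Icc (j + 1 - c : ℤ) (j + 1 + c)
      have hs : ((box h j).image (· + k)) ∆ (box h j) ⊆ A' ×ˢ B ∪ A ×ˢ B' := by
        intro p hp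
        have e : p ∈ (box h j).image (· + k) ↔ p - k ∈ box h j := by
          rw [Finset.mem_image]
          exact ⟨by rintro ⟨q, hq, rfl⟩; simpa using hq, fun hq => ⟨_, hq, by simp⟩⟩
        rw [Finset.mem_symmDiff, e] at hp
        simp only [box, A, B, A', B', Finset.mem_product, Finset.mem_Icc, Finset.mem_union,
          Prod.fst_sub, Prod.snd_sub] at hp ⊢
        omega
      have hA : A.card ≤ (2 * c + 1) * (j + 1) := by
        simp only [A, Int.card_Icc]; rw [Int.toNat_le]; push_cast; nlinarith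
      have hB : B.card ≤ (2 * c + 1) * (j + 1) := by
        simp only [B, Int.card_Icc]; rw [Int.toNat_le]; push_cast; nlinarith
      have hA' : A'.card ≤ 2 * (2 * c + 1) := by
        refine (Finset.card_union_le _ _).trans ?_
        simp only [Int.card_Icc]; omega
      have hB' : B'.card ≤ 2 * (2 * c + 1) := by
        refine (Finset.card_union_le _ _).trans ?_
        simp only [Int.card_Icc]; omega
      refine (Finset.card_le_card hs).trans ((Finset.card_union_le _ _).trans ?_)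
      rw [Finset.card_product, Finset.card_product]
      have := Nat.mul_le_mul hA' hB
      have := Nat.mul_le_mul hA hB'
      nlinarith
    have ht : Tendsto (fun j : ℕ => ((8 * (2 * c + 1) ^ 2 : ℕ) : ℝ) / ((j + 1 : ℕ) : ℝ)) atTop
        (𝓝 0) := (tendsto_const_div_atTop_nhds_zero_nat _).comp (tendsto_add_atTop_nat 1)
    refine squeeze_zero (fun j => by positivity) (fun j => ?_) ht
    rw [box_card, div_le_div_iff₀ (by positivity) (by positivity)]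
    have := Nat.mul_le_mul_right (j + 1) (hb j)
    rw [mul_assoc, ← sq] at this
    exact_mod_cast this

theorem ev {u : ℤ × ℤ → ℂ} (hu : sq2 u ≤ ENNReal.ofReal ((1 / 4) ^ 2)) (h : ℕ) :
    ∀ᶠ j in atTop, ∑ p ∈ box h j, ‖u p‖ ^ 2 < ((j + 1 : ℕ) : ℝ) ^ 2 / 8 := by
  have h1 := (le_iSup₂_of_le (f := fun (I : ℕ → Finset (ℤ × ℤ)) (_ : Folner I) => limsup
    (fun j => ENNReal.ofReal ((∑ p ∈ I j, ‖u p‖ ^ 2) / (I j).card)) atTop) (box h) (box_fol h)
    le_rfl).trans hu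
  have h2 := eventually_lt_of_limsup_lt (h1.trans_lt
    ((ENNReal.ofReal_lt_ofReal_iff (by norm_num)).2 (by norm_num : ((1 : ℝ) / 4) ^ 2 < 1 / 8)))
  filter_upwards [h2] with j hj
  rw [ENNReal.ofReal_lt_ofReal_iff (by norm_num), box_card, div_lt_iff₀ (by positivity)] at hj
  push_cast at hj ⊢
  linarith

noncomputable def E (t : UnitAddCircle) : ℂ := AddCircle.toCircle t

theorem E_add (s t : UnitAddCircle) : E (s + t) = E s * E t := by
  simp [E, AddCircle.toCircle_add]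

theorem E_norm (s : UnitAddCircle) : ‖E s‖ = 1 := by simp [E]

theorem E_zero : E 0 = 1 := by simp [E]

noncomputable def al : UnitAddCircle := ((√2 : ℝ) : UnitAddCircle)

theorem al_ne {k : ℤ} (hk : k • al = 0) : k = 0 := by
  by_contra h0
  rw [al, ← AddCircle.coe_zsmul, AddCircle.coe_eq_zero_iff] at hk
  obtain ⟨n, hn⟩ := hk
  simp only [zsmul_eq_mul, mul_one] at hn
  exact ((irrational_sqrt_two.intCast_mul h0).ne_int n) hn.symm

theorem E_ne {k : ℤ} (hk : k ≠ 0) : E (k • al) ≠ 1 := by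
  intro h
  apply hk (al_ne ?_)
  apply AddCircle.injective_toCircle one_ne_zero
  rw [AddCircle.toCircle_zero]
  exact Circle.ext h

theorem geo (θ φ : UnitAddCircle) (N : ℕ) :
    ‖(E θ - 1) * ∑ m ∈ Finset.Icc (1 : ℤ) N, E (m • θ + φ)‖ ≤ 2 := by
  have : (E θ - 1) * ∑ m ∈ Finset.Icc (1 : ℤ) N, E (m • θ + φ) =
      E (((N : ℤ) + 1) • θ + φ) - E (θ + φ) := by
    induction N with
    | zero => simp
    | succ N ih =>
      push_cast
      rw [← Finset.insert_Icc_right_eq_Icc_add_one (by omega), Finset.sum_insert (by simp),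
        mul_add, ih, add_zsmul θ (N + 1 : ℤ) 1, one_zsmul, add_right_comm _ θ φ, E_add _ θ]
      ring
  rw [this]
  exact (norm_sub_le _ _).trans (by rw [E_norm, E_norm]; norm_num)

theorem notA {a : ℤ × ℤ → ℂ} (ha : ∀ p, a p = E ((2 * (p.1 - p.2) ^ 2) • al)) : ¬ Approx1 a := by
  intro H
  obtain ⟨b, hb, hs⟩ := H (1 / 4) (by norm_num)
  obtain ⟨h, h1, h2⟩ := ap hb (δ := 1 / 4) (by norm_num)
  set θ : UnitAddCircle := (4 * h : ℤ) • al with hθ
  have hz : 0 < ‖E θ - 1‖ := norm_pos_iff.2 (sub_ne_zero.2 (E_ne (by omega)))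
  obtain ⟨j, ⟨e0, eh⟩, hj⟩ := (((ev hs 0).and (ev hs h)).and
    (tendsto_natCast_atTop_atTop.eventually_ge_atTop (4 / ‖E θ - 1‖))).exists
  have eh' : ∑ p ∈ box h j, ‖(a - b) p‖ ^ 2 = ∑ p ∈ box 0 j, ‖(a - b) (p.1 + h, p.2)‖ ^ 2 := by
    symm
    refine Finset.sum_bij' (fun p _ => (p.1 + h, p.2)) (fun p _ => (p.1 - h, p.2)) ?_ ?_ ?_ ?_ ?_
    all_goals simp [box]
    all_goals omega
  have up : ∑ p ∈ box 0 j, ‖a (p.1 + h, p.2) - a p‖ ^ 2 ≤
      ∑ p ∈ box 0 j, 3 * (‖(a - b) (p.1 + h, p.2)‖ ^ 2 + ‖(a - b) p‖ ^ 2 + 1 / 16) := by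
    refine Finset.sum_le_sum fun p hp => ?_
    obtain ⟨p1, p2⟩ := (box_fol 0).2.1 j p hp
    have h3 := h2 _ _ p1 p2
    have h4 : ‖a (p.1 + h, p.2) - a p‖ ≤ ‖(a - b) (p.1 + h, p.2)‖ + ‖(a - b) p‖ + 1 / 4 := by
      have : a (p.1 + h, p.2) - a p = (a - b) (p.1 + h, p.2) - (a - b) p +
        (b (p.1 + h, p.2) - b (p.1, p.2)) := by simp only [Pi.sub_apply]; ring
      rw [this]
      exact (norm_add_le _ _).trans (add_le_add (norm_sub_le _ _) h3.le)
    have h5 := pow_le_pow_left₀ (norm_nonneg _) h4 2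
    nlinarith [sq_nonneg (‖(a - b) (p.1 + h, p.2)‖ - ‖(a - b) p‖),
      sq_nonneg (‖(a - b) (p.1 + h, p.2)‖ - 1 / 4), sq_nonneg (‖(a - b) p‖ - 1 / 4)]
  rw [← Finset.mul_sum, Finset.sum_add_distrib, Finset.sum_add_distrib, ← eh', Finset.sum_const,
    box_card, nsmul_eq_mul] at up
  have lo : ∀ n : ℤ, ((j + 1 : ℕ) : ℝ) ≤
      ∑ m ∈ Finset.Icc (1 : ℤ) (j + 1 : ℕ), ‖a (m + h, n) - a (m, n)‖ ^ 2 := by
    intro n
    set φ : UnitAddCircle := (2 * h ^ 2 - 4 * h * n : ℤ) • al with hφ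
    have e1 : ∀ m : ℤ, ‖a (m + h, n) - a (m, n)‖ ^ 2 = 2 - 2 * (E (m • θ + φ)).re := by
      intro m
      have : a (m + h, n) - a (m, n) = a (m, n) * (E (m • θ + φ) - 1) := by
        rw [mul_sub, mul_one, ha, ha, ← E_add, hθ, hφ, smul_smul, ← add_zsmul, ← add_zsmul]
        congr 3; ring
      rw [this, norm_mul, ha, E_norm, one_mul, Complex.sq_norm, Complex.normSq_sub,
        Complex.normSq_eq_norm_sq, E_norm]
      simp; ring
    have g := geo θ φ (j + 1)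
    rw [norm_mul, ← le_div_iff₀' hz] at g
    have g2 := (Complex.re_le_norm _).trans g
    rw [Complex.re_sum] at g2
    simp only [e1, Finset.sum_sub_distrib, ← Finset.mul_sum, Finset.sum_const, Int.card_Icc,
      add_sub_cancel_right, Int.toNat_natCast, nsmul_eq_mul]
    have : 4 / ‖E θ - 1‖ = 2 * (2 / ‖E θ - 1‖) := by ring
    push_cast at g2 ⊢
    linarith
  have lo2 : ((j + 1 : ℕ) : ℝ) ^ 2 ≤ ∑ p ∈ box 0 j, ‖a (p.1 + h, p.2) - a p‖ ^ 2 := by
    rw [box, Finset.sum_product_right]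
    have := Finset.card_nsmul_le_sum (Finset.Icc (1 : ℤ) (j + 1 : ℕ)) _ _ fun n _ => lo n
    simp only [Int.card_Icc, add_sub_cancel_right, Int.toNat_natCast, nsmul_eq_mul] at this
    push_cast at this ⊢
    simpa [sq] using this
  have : (0 : ℝ) < ((j + 1 : ℕ) : ℝ) ^ 2 := by positivity
  push_cast at *
  linarith

abbrev XX : Type := UnitAddCircle × UnitAddCircle × UnitAddCircle

noncomputable def F0 (d c : ℤ) (p : XX) : XX :=
  (p.1 + d • al, p.2 + ((2 * d) • p.1 + (d ^ 2) • al, c • al))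

theorem F0_F0 (d c d' c' : ℤ) (p : XX) : F0 d c (F0 d' c' p) = F0 (d + d') (c + c') p := by
  simp only [F0, Prod.ext_iff, Prod.fst_add, Prod.snd_add]
  refine ⟨?_, ?_, ?_⟩ <;> module

theorem F0_zero (p : XX) : F0 0 0 p = p := by simp [F0, Prod.ext_iff]

noncomputable abbrev mu : Measure XX := volume.prod (volume.prod volume)

noncomputable def F : Multiplicative (ℤ × ℤ) →* Equiv.Perm XX :=
  MonoidHom.toHomPerm
    { toFun := fun k => F0 k.toAdd.1 k.toAdd.2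
      map_one' := funext F0_zero
      map_mul' := fun _ _ => funext fun p => (F0_F0 _ _ _ _ p).symm }

theorem F_cont (d c : ℤ) : Continuous (F0 d c) := by unfold F0; fun_prop

theorem F_mp (d c : ℤ) : MeasurePreserving (F0 d c) mu mu :=
  MeasurePreserving.skew_product (measurePreserving_add_right volume (d • al))
    (g := fun (x : UnitAddCircle) (q : UnitAddCircle × UnitAddCircle) =>
      q + ((2 * d) • x + (d ^ 2) • al, c • al)) (Continuous.measurable (by fun_prop))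
    (Eventually.of_forall fun _ => map_add_right_eq_self _ _)

theorem result : ∃ (X : Type) (_ : MeasurableSpace X) (_ : StandardBorelSpace X) (μ : Measure X)
    (_ : IsProbabilityMeasure μ) (T₁ T₂ : Equiv.Perm X),
    MeasurePreserving T₁ μ μ ∧ MeasurePreserving (T₁⁻¹ : Equiv.Perm X) μ μ ∧
    MeasurePreserving T₂ μ μ ∧ MeasurePreserving (T₂⁻¹ : Equiv.Perm X) μ μ ∧ Commute T₁ T₂ ∧
    (∀ i j : ℤ, ⇑(T₁ ^ i) =ᵐ[μ] ⇑(T₂ ^ j) → i = 0 ∧ j = 0) ∧
    ∃ f g h : X → ℂ, MemLp f ⊤ μ ∧ MemLp g ⊤ μ ∧ MemLp h ⊤ μ ∧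
      ¬ Approx1 fun p => ∫ x, f x * g ((T₁ ^ p.1 * T₂ ^ p.2) x) * h ((T₁ ^ p.2 * T₂ ^ p.1) x) ∂μ := by
  have hE : Continuous E := by
    unfold E; exact continuous_subtype_val.comp AddCircle.continuous_toCircle
  have hL : ∀ k : ℤ, MemLp (fun p : XX => E (k • p.2.1)) ⊤ mu := fun k =>
    memLp_top_of_bound (Continuous.aestronglyMeasurable (by fun_prop)) 1
      (Eventually.of_forall fun _ => (E_norm _).le)
  have : IsProbabilityMeasure (volume : Measure UnitAddCircle) := ⟨UnitAddCircle.measure_univ⟩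
  have sb : StandardBorelSpace XX := standardBorel_of_polish
  refine ⟨XX, _, sb, mu, inferInstance, F (.ofAdd (1, 1)),
    F (.ofAdd (-1, 0)), F_mp _ _, ?_, F_mp _ _, ?_, (Commute.all _ _).map F, fun i j H => ?_,
    _, _, _, hL (-2), hL 1, hL 1, notA fun p => ?_⟩
  · rw [← map_inv]; exact F_mp _ _
  · rw [← map_inv]; exact F_mp _ _
  · rw [← map_zpow F, ← map_zpow F] at H
    have H2 := congrFun ((Continuous.ae_eq_iff_eq mu (F_cont _ _) (F_cont _ _)).1 H) 0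
    simp only [F0, Prod.ext_iff] at H2
    simp at H2
    have hi := al_ne H2.2.2
    subst hi
    exact ⟨rfl, al_ne (by simpa using H2.1)⟩
  · simp only [← map_zpow, ← map_mul]
    have : ∀ x : XX, E ((-2 : ℤ) • x.2.1) * E ((1 : ℤ) • (F (Multiplicative.ofAdd ((1 : ℤ), (1 : ℤ)) ^ p.1 *
        Multiplicative.ofAdd ((-1 : ℤ), (0 : ℤ)) ^ p.2) x).2.1) * E ((1 : ℤ) •
        (F (Multiplicative.ofAdd ((1 : ℤ), (1 : ℤ)) ^ p.2 *
        Multiplicative.ofAdd ((-1 : ℤ), (0 : ℤ)) ^ p.1) x).2.1) = E ((2 * (p.1 - p.2) ^ 2) • al) := by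
      intro x
      rw [← E_add, ← E_add]
      congr 1
      change _ + (1 : ℤ) • (F0 _ _ x).2.1 + (1 : ℤ) • (F0 _ _ x).2.1 = _
      simp only [F0, toAdd_mul, toAdd_zpow, toAdd_ofAdd, Prod.fst_add, Prod.smul_fst, smul_eq_mul]
      module
    simp only [this]
    simp

end Pool.Agent.Results.MP_8ac988_an.No
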